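import Mathlib
import Pool.Agent.Q14.CV.Cv1
import Pool.Agent.Q14.CV.Cv2
import Pool.Agent.Q273.CV.Fin
import Pool.Agent.Q273.TR.Cell
import Pool.Agent.Q38.TR.Core
import Pool.Agent.Q166.TR.KMV
import Pool.Agent.Q166.TR.RANK
import Pool.Agent.Q177.TR.Cnt1
import Pool.Agent.Q79.TR.Cnt2

/-!
# The height inequality for all algebraic points of all curves above points near almost every adele

Let `C` be a smooth projective curve over a number field, `D` a reduced effective divisor on `C` and
`f : C → ℙ¹` a finite map of degree `N` over `ℚ` which is unramified outside the fibres over the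
rational points `a_1, …, a_q`, and maps the points of `D` to the `a_j` (such a map exists by Belyi's
theorem with `q = 3`; we may suppose that `a_j ≠ ∞`). Let `A` be the ring of functions on `C` with
poles only over `∞`: a Dedekind domain, finite over `ℚ[f]`. Let `y_{j 0} = f - a_j, y_{j 1}, …` be
generators of the radical of the ideal `(f - a_j)`, the ideal of the reduced fibre `F_j` over `a_j`.
Then `F = ∑ F_j ≥ D` and `(deg K_C) / N = q - 2 - (∑_j dim (A / (y_{j 0}, y_{j 1}, …))) / N`. The
points `P` of `C` (not over `∞`) over a number field `L` are the homomorphisms `φ : A → L`, and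
`λ_v(P) = ∑_j max(0, - log max_i |y_{j i}(P)|_v)` is a Weil function of `F` at `v`.

We show the height inequality `m_S(F, P) + (deg K_C / N) h(x) ≤ d(L) + ε h(x) + ∑_{p ∈ S} log p + c`
for all points `P` of `C` of all degrees above `x = f(P)`, over all number fields `L`, for all finite
sets `S` of primes and for

(I) all `x` in a number field `K` which are not too far from an adelic point of `K`: almost every
adelic point has the property, for all curves at once; here even `d(L) - d(K)` can be taken, and the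
proximity of `x` to the adelic point can be added in a part of the range (always for `q = 2`);

(II) all `x` of degree at most two over `ℚ` not too far from an adelic point of `ℚ`;

(III) all algebraic `x` of any degree `s` close enough to a real number.

There is no exceptional set. For `S = ∅` these are lower bounds for the discriminants of the fields of
definition of all points above `x`.
-/

set_option autoImplicit false

namespace Pool.Agent.Results.MP_6f1c57_nt.AllCurvesNearAdeles

open MeasureTheory NumberField IsDedekindDomain NumberField.mixedEmbedding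
open scoped Polynomial

/-! ### Heights and the curves -/

/-- The absolute logarithmic Weil height `h(x)`. -/
noncomputable def height {K : Type} [Field K] [NumberField K] (x : K) : ℝ :=
  (1 / (Module.finrank ℚ K : ℝ)) *
    ((∑ w : InfinitePlace K, (w.mult : ℝ) * Real.log (max 1 (w x))) +
      ∑ᶠ v : HeightOneSpectrum (𝓞 K), Real.log (max 1 (FinitePlace.mk v x)))

/-- The logarithmic discriminant `d(L) = log |disc L| / [L : ℚ]`. -/
noncomputable def logDisc (L : Type) [Field L] [NumberField L] : ℝ :=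
  Real.log |(NumberField.discr L : ℝ)| / Module.finrank ℚ L

/-- the function `f` -/
noncomputable def coord (A : Type) [CommRing A] [Algebra ℚ[X] A] : A := algebraMap ℚ[X] A .X

/-- `max (0, - log max_i c_i)` -/
noncomputable def minusLog {s : ℕ} (c : Fin (s + 1) → ℝ) : ℝ := max 0 (-Real.log (⨆ i, c i))

open Classical in
/-- The proximity function `m_S(F, P)`: the sum over the infinite places `w` (with
`mult w = [L_w : ℝ]`) and the primes `v` above the primes of `S` of the local heights
`∑_j max (0, - log max_i |y_{j i}(P)|)`, divided by `[L : ℚ]`. The absolute values are normalised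
so that the product formula holds: `|b|_v = N(v) ^ (- v(b))`. -/
noncomputable def proximity {A : Type} [CommRing A] (S : Finset ℕ) {q : ℕ}
    (u : Fin q → ℕ) (y : ∀ j, Fin (u j + 1) → A)
    (L : Type) [Field L] [NumberField L] (φ : A →+* L) : ℝ :=
  ((∑ w : InfinitePlace L, (w.mult : ℝ) * ∑ j, minusLog (fun i => w (φ (y j i)))) +
    ∑ᶠ v : HeightOneSpectrum (𝓞 L), if ∃ p ∈ S, (p : 𝓞 L) ∈ v.asIdeal then
      ∑ j, minusLog (fun i => FinitePlace.mk v (φ (y j i))) else 0) / Module.finrank ℚ L

/-- `q - 2 - (∑_j dim (A / (y_{j 0}, y_{j 1}, …))) / N`, where `N` is the rank of `A` over `ℚ[f]`: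
the number `(deg K_C) / N`. -/
noncomputable def canonical {A : Type} [CommRing A] [Algebra ℚ A] [Algebra ℚ[X] A] {q : ℕ}
    (u : Fin q → ℕ) (y : ∀ j, Fin (u j + 1) → A) : ℝ :=
  q - 2 - (∑ j, (Module.finrank ℚ (A ⧸ Ideal.span (Set.range (y j))) : ℝ)) / Module.finrank ℚ[X] A

/-- the rational numbers `a_j` are distinct, `y_{j 0} = f - a_j` and the `y_{j i}` lie in the radical
of the ideal `(f - a_j)` -/
def Fibres (A : Type) [CommRing A] [Algebra ℚ A] [Algebra ℚ[X] A] {q : ℕ}
    (a : Fin q → ℚ) (u : Fin q → ℕ) (y : ∀ j, Fin (u j + 1) → A) : Prop :=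
  Function.Injective a ∧ (∀ j, y j 0 = coord A - algebraMap ℚ[X] A (.C (a j))) ∧
    ∀ j i, y j i ∈ (Ideal.span {coord A - algebraMap ℚ[X] A (.C (a j))}).radical

/-! ### Adelic points -/

/-- the product over all primes `v` of `K` of the rings `O_v`, with the product topology -/
abbrev FinAd (K : Type) [Field K] [NumberField K] : Type :=
  (v : HeightOneSpectrum (𝓞 K)) → v.adicCompletionIntegers K

/-- The proximity of `x ∈ K` to the adelic point `p = (ξ, η)`, `ξ ∈ K ⊗ ℝ`, at all infinite places and
at the primes in `V`: `1 / [K : ℚ]` times the sum of `n_w log max (1, 1 / |ξ - x|_w)` over the infinite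
places `w` and of `log max (1, 1 / |η_v - x|_v)` over the `v ∈ V`. -/
noncomputable def proxK {K : Type} [Field K] [NumberField K] (V : Finset (HeightOneSpectrum (𝓞 K)))
    (p : mixedSpace K × FinAd K) (x : K) : ℝ :=
  (∑ w : InfinitePlace K, (w.mult : ℝ) *
      Real.log (max 1 (normAtPlace w (p.1 - mixedEmbedding K x))⁻¹) +
    ∑ v ∈ V, Real.log (max 1 ‖(p.2 v : v.adicCompletion K) - FinitePlace.embedding v x‖⁻¹)) /
      Module.finrank ℚ K

/-- the exponent in the first inequality -/
noncomputable def expo (q : ℕ) : ℝ :=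
  if q = 3 then 80 / 133 else if q = 4 then 18 / 23 else if q = 5 ∨ q = 6 then 1 else 8 / 7

/-- the exponent in the inequality with the target -/
noncomputable def kap (q : ℕ) : ℝ := if q = 2 then 2 else if q = 3 then 1 else 6 / 7

/-- the product of the rings of `p`-adic integers over all primes `p`, with the product topology -/
abbrev ZHat : Type := (p : Nat.Primes) → @PadicInt p.1 ⟨p.2⟩

/-- The proximity function of the real point `ξ` at an algebraic number `x`, given by its minimal
polynomial `f ∈ ℤ[X]`: the average over the conjugates `z` of `x`, i.e. the roots of `f`, of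
`log (max(1,|z|) max(1,|ξ|) / |ξ - z|)`. -/
noncomputable def proxInf (ξ : ℝ) (f : ℤ[X]) : ℝ :=
  ((f.map (Int.castRingHom ℂ)).roots.map fun z =>
    Real.log (max 1 ‖z‖ * max 1 |ξ| / ‖(ξ : ℂ) - z‖)).sum / f.natDegree

/-- The proximity function of the `p`-adic integer `η`, `-log |f(η)|_p / deg f`: for primitive `f`
this is the average over the conjugates `z` of `x` over `ℚ_p` of `log (max(1,|z|_p) / |η - z|_p)`. -/
noncomputable def proxP (p : Nat.Primes) (η : @PadicInt p.1 ⟨p.2⟩) (f : ℤ[X]) : ℝ :=
  haveI : Fact p.1.Prime := ⟨p.2⟩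
  Real.log ‖Polynomial.aeval η f‖⁻¹ / f.natDegree

/-- the proximity function of the adelic point `w` of `ℚ` at the infinite place and the primes of
`V` -/
noncomputable def proxQ (V : Finset Nat.Primes) (w : ℝ × ZHat) (f : ℤ[X]) : ℝ :=
  proxInf w.1 f + ∑ p ∈ V, proxP p (w.2 p) f

/-- `K = ℚ(x)`, and `f` is the minimal polynomial of `x` over `ℤ` -/
def IsMin (K : Type) [Field K] [NumberField K] (x : K) (f : ℤ[X]) : Prop :=
  Irreducible f ∧ f.natDegree = Module.finrank ℚ K ∧ Polynomial.aeval x f = 0

/-- The height inequality for all points of the curve above `x ∈ K`, with an additional term `t`: for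
all number fields `L` containing `K`, all points `P = φ` over `L` above `x` and all finite sets `S` of
primes, `t + m_S(F, P) + (deg K_C / N) h(x) ≤ d(L) + ε h(x) + ∑_{p ∈ S} log p + C`. -/
def Above {K : Type} [Field K] [NumberField K] {A : Type} [CommRing A] [Algebra ℚ A]
    [Algebra ℚ[X] A] {q : ℕ} (u : Fin q → ℕ) (y : ∀ j, Fin (u j + 1) → A) (x : K)
    (t ε C : ℝ) : Prop :=
  ∀ (L : Type) [Field L] [NumberField L] [Algebra K L] (φ : A →+* L) (S : Finset ℕ),
    φ (coord A) = algebraMap K L x → (∀ p ∈ S, p.Prime) →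
      t + proximity S u y L φ + canonical u y * height x ≤
        logDisc L + ε * height x + ∑ p ∈ S, Real.log p + C

/-- (I): for all curves (`A`, `a`, `y`), `q ≥ 2`, and all `ε > 0` there is `C` such that for all
`x ∈ K`, `x ≠ a_j`, the inequality above `x` holds with `d(L) - d(K)` in place of `d(L)` if `q ≥ 3` and
`m_V(p, x) ≥ (e_q + ε) h(x)`, and with `m_V(p, x)` added on the left if `q = 2` or
`m_V(p, x) ≥ (2 - k_q + ε) h(x)` -/
def LawI {K : Type} [Field K] [NumberField K] (V : Finset (HeightOneSpectrum (𝓞 K)))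
    (p : mixedSpace K × FinAd K) : Prop :=
  ∀ (A : Type) [CommRing A] [IsDedekindDomain A] [Algebra ℚ A] [Algebra ℚ[X] A]
    [IsScalarTower ℚ ℚ[X] A] [Module.Finite ℚ[X] A] [FaithfulSMul ℚ[X] A] (q : ℕ) (a : Fin q → ℚ)
    (u : Fin q → ℕ) (y : ∀ j, Fin (u j + 1) → A), 2 ≤ q → Fibres A a u y →
    ∀ ε : ℝ, 0 < ε → ∃ C : ℝ, ∀ x : K, (∀ j, x ≠ (a j : K)) →
      (3 ≤ q ∧ (expo q + ε) * height x ≤ proxK V p x → Above u y x (logDisc K) ε C) ∧
      (q = 2 ∨ (2 - kap q + ε) * height x ≤ proxK V p x →
        Above u y x (logDisc K + proxK V p x) ε C)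

/-- for all curves (`A`, `a`, `y`), `q ≥ 1`, and all `ε > 0` there is `C` such that the inequality
holds above all algebraic numbers `x`, `x ≠ a_j`, with minimal polynomial `f` for which
`good q K x f` holds -/
def LawOn (good : ∀ (_ : ℕ) (K : Type) [Field K] [NumberField K] (_ : K) (_ : ℤ[X]), Prop) : Prop :=
  ∀ (A : Type) [CommRing A] [IsDedekindDomain A] [Algebra ℚ A] [Algebra ℚ[X] A]
    [IsScalarTower ℚ ℚ[X] A] [Module.Finite ℚ[X] A] [FaithfulSMul ℚ[X] A] (q : ℕ) (a : Fin q → ℚ)
    (u : Fin q → ℕ) (y : ∀ j, Fin (u j + 1) → A), 1 ≤ q → Fibres A a u y →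
    ∀ ε : ℝ, 0 < ε → ∃ C : ℝ, ∀ (K : Type) [Field K] [NumberField K] (x : K) (f : ℤ[X]),
      IsMin K x f → (∀ j, x ≠ (a j : K)) → good q K x f → Above u y x 0 ε C

/-- (II): `x` has degree at most two and `(3 q - 2) h(x) ≤ (q + 2) m_V(w, x)` -/
def GoodII (V : Finset Nat.Primes) (w : ℝ × ZHat) (q : ℕ) (K : Type) [Field K] [NumberField K]
    (x : K) (f : ℤ[X]) : Prop :=
  Module.finrank ℚ K ≤ 2 ∧ (3 * (q : ℝ) - 2) * height x ≤ (q + 2) * proxQ V w f

/-- (III): `x` has degree `s` and `(max (s + 1) (3 q) - 2) h(x) ≤ m(ξ, x) + d(ℚ(x))` -/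
def GoodIII (ξ : ℝ) (s : ℕ) (q : ℕ) (K : Type) [Field K] [NumberField K] (x : K) (f : ℤ[X]) :
    Prop :=
  Module.finrank ℚ K = s ∧
    (((max (s + 1) (3 * q) : ℕ) : ℝ) - 2) * height x ≤ proxInf ξ f + logDisc K

open scoped Classical in
/-- **Points above the elements of a number field near almost every adele.** -/
theorem partI (K : Type) [Field K] [NumberField K] [MeasurableSpace (FinAd K)]
    [BorelSpace (FinAd K)] (μ : Measure (FinAd K)) [IsFiniteMeasure μ] [μ.IsAddLeftInvariant] :
    ∀ᵐ p : mixedSpace K × FinAd K ∂(volume.prod μ),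
      ∀ V : Finset (HeightOneSpectrum (𝓞 K)), LawI V p := by
  have h := Q273.CV.ae_tr (K := K) μ
    (P := fun p => (∀ (q : ℕ), 2 ≤ q → ∀ α : Fin q → K × K, Q273.MV.Pts α →
      ∀ T : Set (HeightOneSpectrum (𝓞 K)), T.Finite → Q273.AD.LawPA p T α (Q273.MV.kap q)) ∧
    (∀ (q : ℕ), 3 ≤ q → ∀ α : Fin q → K × K, Q273.MV.Pts α →
      ∀ T : Set (HeightOneSpectrum (𝓞 K)), T.Finite →
      ∀ (V : Finset (HeightOneSpectrum (𝓞 K))) (c ε : ℝ), 0 < ε →
        {x : K | (∀ l, x * (α l).2 - 1 * (α l).1 ≠ 0) ∧
          (Q273.MV.expo q + ε) * Q273.MV.hh x ≤ Q273.AD.prA V p (fun _ => x) ∧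
          Pool.Agent.Results.MP_4d5ce1_nt.ExceptionalSetExponents.counting T α x <
            ((q : ℝ) - 2) * Pool.Agent.Results.MP_4d5ce1_nt.ExceptionalSetExponents.height x +
              c}.Finite))
    (fun μ' _ _ => by
      filter_upwards [Q273.AD.lawPA μ', Q273.CV.lawEA μ'] with p h1 h2
      exact ⟨h1, h2⟩)
  filter_upwards [h] with p hp V A _ _ _ _ _ _ _ q a u y hq hF ε hε
  obtain ⟨C, hC⟩ := Pool.Agent.Q14.CV.cv1 K _ hp.1 hp.2 V A q a u y hq hF ε hε
  refine ⟨C, fun x hx => ?_⟩
  have h2 : Q273.AD.prA V ((fun _ => p.1, Q273.CV.gm K p.2) :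
      (Fin 1 → mixedSpace K) × Q273.AD.FinAd K 1) (fun _ => x) / Module.finrank ℚ K =
      proxK V p x := by
    unfold Q273.AD.prA Q273.MV.prox Q273.AD.pv proxK
    simp only [ciSup_unique]
    rfl
  constructor
  · intro hle L _ _ _ φ S hφ hS
    have h1 := (hC x hx L φ S hφ hS).1
    rw [h2] at h1
    have h3 : proximity S u y L φ + canonical u y * height x ≤
        logDisc L - logDisc K + ε * height x + ∑ p ∈ S, Real.log p + C := h1 hle
    linarith
  · intro hle L _ _ _ φ S hφ hS
    have h1 := (hC x hx L φ S hφ hS).2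
    rw [h2] at h1
    have h3 : proxK V p x + proximity S u y L φ + canonical u y * height x ≤
        logDisc L - logDisc K + ε * height x + ∑ p ∈ S, Real.log p + C := h1 hle
    linarith

/-- **Points above all quadratic points near almost every adele.** -/
theorem partII [MeasurableSpace ZHat] [BorelSpace ZHat] (μ : Measure ZHat) [IsFiniteMeasure μ]
    [μ.IsAddLeftInvariant] :
    ∀ᵐ w : ℝ × ZHat ∂(volume.prod μ), ∀ V : Finset Nat.Primes, LawOn (GoodII V w) := by
  filter_upwards [Q273.QP.lawq μ] with w hw V A _ _ _ _ _ _ _ q a u y hq hF ε hε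
  obtain ⟨C, hC⟩ := Pool.Agent.Q14.CV.cv2 V w (hw V).2.2.2 A q a u y hq hF ε hε
  refine ⟨C, fun K _ _ x f hf hx hg L _ _ _ φ S hφ hS => ?_⟩
  have h1 : Q273.CV.height x = Q273.QP.height f := Q273.CV.height_poly' hf.1 hf.2.2 hf.2.1
  have h2 : (3 * (q : ℝ) - 2) * Q273.CV.height x ≤ (q + 2) * Q273.QP.prox V w f := hg.2
  rw [h1] at h2
  have h3 : proximity S u y L φ + canonical u y * height x ≤
      logDisc L + ε * height x + ∑ p ∈ S, Real.log p + C :=
    hC K x f hg.1 hf.1 hf.2.1 hf.2.2 hx h2 L φ S hφ hS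
  linarith

/-- **Points above the algebraic points of every degree near almost every real number.** -/
theorem partIII : ∀ᵐ ξ : ℝ, ∀ s : ℕ, LawOn (GoodIII ξ s) := by
  have hcore := Pool.Agent.Q38.TR.core Q166.TR.kmv Q273.TR.cell
  have hcnt := Pool.Agent.Q79.TR.cnt2 Pool.Agent.Q177.TR.cnt1
  filter_upwards [Q273.TR.spr hcore, Q273.TR.main hcore Q166.TR.rank Q166.TR.inv hcnt] with ξ h1 h2
  intro s A _ _ _ _ _ _ _ q a u y hq hF ε hε
  by_cases hs : 1 ≤ s
  · have hlaw := Q273.CV.lawG_tr (ξ := ξ) (s := s) (q := q) fun G S hp ε hε =>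
      Q273.TR.part1 h1 h2 s q G S hs hp ε hε
    obtain ⟨C, hC⟩ := Q273.CV.cvg hlaw hq A a u y hF ε hε
    refine ⟨C, fun K _ _ x f hf hx hg L _ _ _ φ S hφ hS => ?_⟩
    have h3 : Q273.CV.height x = Q273.QP.height f := Q273.CV.height_poly' hf.1 hf.2.2 hf.2.1
    let ψ : K →ₐ[ℚ] ℂ := IsAlgClosed.lift
    obtain ⟨hz, hdisc⟩ := Q273.QP.logDisc_emb ψ x f hf.1 hf.2.1 hf.2.2
    have h4 : proximity S u y L φ + canonical u y * height x ≤
        logDisc L + ε * height x + ∑ p ∈ S, Real.log p + C := by
      refine hC K x f ψ hf.1 hf.2.1 hf.2.2 hx ⟨hf.2.1.trans hg.1, ?_⟩ L φ S hφ hS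
      rw [hdisc, ← h3]
      exact hg.2
    linarith
  · refine ⟨0, fun K _ _ x f hf hx hg => ?_⟩
    have h3 : 0 < Module.finrank ℚ K := Module.finrank_pos
    have h4 := hg.1
    omega

open scoped Classical in
/-- **All algebraic points of all curves above points near almost every adele.**
(I) For every number field `K`, almost every adelic point `p` of `K` and all finite sets `V` of primes
of `K`, the height inequality holds for all points of all curves above the `x ∈ K` as in `LawI`.
(II) For almost every adelic point `w` of `ℚ` and all `V` it holds for all points of all curves above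
all `x` of degree at most two over `ℚ` with `(3 q - 2) h(x) ≤ (q + 2) m_V(w, x)`.
(III) For almost every real number `ξ` and all `s` it holds for all points of all curves above all `x`
of degree `s` over `ℚ` with `(max (s + 1) (3 q) - 2) h(x) ≤ m(ξ, x) + d(ℚ(x))`. -/
theorem result :
    (∀ (K : Type) [Field K] [NumberField K] [MeasurableSpace (FinAd K)]
      [BorelSpace (FinAd K)] (μ : Measure (FinAd K)) [IsFiniteMeasure μ] [μ.IsAddLeftInvariant],
      ∀ᵐ p : mixedSpace K × FinAd K ∂(volume.prod μ),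
        ∀ V : Finset (HeightOneSpectrum (𝓞 K)), LawI V p) ∧
    (∀ [MeasurableSpace ZHat] [BorelSpace ZHat] (μ : Measure ZHat) [IsFiniteMeasure μ]
      [μ.IsAddLeftInvariant],
      ∀ᵐ w : ℝ × ZHat ∂(volume.prod μ), ∀ V : Finset Nat.Primes, LawOn (GoodII V w)) ∧
    (∀ᵐ ξ : ℝ, ∀ s : ℕ, LawOn (GoodIII ξ s)) :=
  ⟨fun K _ _ _ _ μ _ _ => partI K μ, fun μ _ _ => partII μ, partIII⟩

end Pool.Agent.Results.MP_6f1c57_nt.AllCurvesNearAdeles
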