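import Pool.Agent.Q183.VC.Triv
import Pool.Agent.Q183.VC.Cnt
import Pool.Agent.Q183.AM.Cartan5
import Pool.Agent.Q183.AM.Forms

/-!
# The height inequality for all algebraic points of all curves above linear recurrences

Let `C` be a smooth projective curve over a number field, `D` a reduced effective divisor on `C` and
`f : C → ℙ¹` a finite map of degree `N` over `ℚ` which is unramified outside the fibres over the
rational points `a_1, …, a_q`, and maps the points of `D` to the `a_j` (such a map exists by Belyi's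
theorem with `q = 3`; we may suppose that `a_j ≠ ∞`). Let `A` be the ring of functions on `C` with
poles only over `∞`: a Dedekind domain, finite over `ℚ[f]`. Let `y_{j 0} = f - a_j, y_{j 1}, …` be
generators of the radical of the ideal `(f - a_j)`, the ideal of the reduced fibre `F_j` over `a_j`.
Then `F = ∑ F_j ≥ D` and `(deg K_C) / N = q - 2 - (∑_j dim (A / (y_{j 0}, y_{j 1}, …))) / N`. The
points `P` of `C` (not over `∞`) over a number field `L` are the homomorphisms `φ : A → L`, and
`λ_v(P) = ∑_j max(0, - log max_i |y_{j i}(P)|_v)` is a Weil function of `F` at `v`.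

Let `k` be a number field and `x(s) = X_0(s) / X_1(s)`, where `X_0` and `X_1` are sequences of integers
of `k` with linear recurrences with constant coefficients, such that the values at `x(s)` of the
equations of the `a_j` are products `κ μ ^ s ∏ g_l(s) ^ e_l` of powers of such sequences `g_l`, with
arbitrary exponents. We show, for all points `P` of `C` of all degrees above `x(s)`, over all number
fields `L` which contain `k`, and for all finite sets `S` of primes,
`m_S(F, P) + (deg K_C / N) h(x(s)) ≤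
  d(L) - d(k) + ε h(x(s)) + (log N(𝔟)) / [k : ℚ] + ∑_{p ∈ S} log p + c`,
where the product of the different `g_l(s)` is the product of a squarefree ideal and of an ideal `𝔟`
prime to it: for almost all `s` with a constant `c`, with `c + δ s` for all `s`, and with a constant
`c` for all `s` with `h(x(s)) ≥ c' s`. There is no exceptional set. For `S = ∅` this is a lower bound
for the discriminants of the fields of definition of all points above `x(s)`.
-/

set_option autoImplicit false

namespace Pool.Agent.Results.MP_6f1c57_nt.AlongRecurrences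

open IsDedekindDomain NumberField
open scoped Polynomial

/-- `κ_i μ_i ^ s ∏ g_j(s) ^ e_ij` -/
def val {K : Type} [Field K] [NumberField K] {I J : Type} [Fintype J] (κ μ : I → 𝓞 K)
    (g : J → ℕ → 𝓞 K) (e : I → J → ℕ) (i : I) (s : ℕ) : 𝓞 K :=
  κ i * μ i ^ s * ∏ j, g j s ^ e i j

open Classical in
/-- the indices `j` of the bases whose exponents `e_ij` are not all equal -/
noncomputable def uneq {I J : Type} [Fintype I] [Fintype J] (e : I → J → ℕ) : Finset J :=
  Finset.univ.filter fun j => ∃ i i', e i j ≠ e i' j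

/-- The absolute logarithmic Weil height `h(x)`. -/
noncomputable def height {K : Type} [Field K] [NumberField K] (x : K) : ℝ :=
  (1 / (Module.finrank ℚ K : ℝ)) *
    ((∑ w : InfinitePlace K, (w.mult : ℝ) * Real.log (max 1 (w x))) +
      ∑ᶠ v : HeightOneSpectrum (𝓞 K), Real.log (max 1 (FinitePlace.mk v x)))

/-- the function `f` -/
noncomputable def coord (A : Type) [CommRing A] [Algebra ℚ[X] A] : A := algebraMap ℚ[X] A .X

/-- `max (0, - log max_i c_i)` -/
noncomputable def minusLog {s : ℕ} (c : Fin (s + 1) → ℝ) : ℝ := max 0 (-Real.log (⨆ i, c i))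

open Classical in
/-- The proximity function `m_S(F, P)`: the sum over the infinite places `w` (with
`mult w = [L_w : ℝ]`) and the primes `v` above the primes of `S` of the local heights
`∑_j max (0, - log max_i |y_{j i}(P)|)`, divided by `[L : ℚ]`. The absolute values are normalised
so that the product formula holds: `|b|_v = N(v) ^ (- v(b))`. -/
noncomputable def proximity {A : Type} [CommRing A] (S : Finset ℕ) {q : ℕ}
    (u : Fin q → ℕ) (y : ∀ j, Fin (u j + 1) → A)
    (L : Type) [Field L] [NumberField L] (φ : A →+* L) : ℝ :=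
  ((∑ w : InfinitePlace L, (w.mult : ℝ) * ∑ j, minusLog (fun i => w (φ (y j i)))) +
    ∑ᶠ v : HeightOneSpectrum (𝓞 L), if ∃ p ∈ S, (p : 𝓞 L) ∈ v.asIdeal then
      ∑ j, minusLog (fun i => FinitePlace.mk v (φ (y j i))) else 0) / Module.finrank ℚ L

/-- The logarithmic discriminant `d(L) = log |disc L| / [L : ℚ]`. -/
noncomputable def logDisc (L : Type) [Field L] [NumberField L] : ℝ :=
  Real.log |(NumberField.discr L : ℝ)| / Module.finrank ℚ L

/-- `q - 2 - (∑_j dim (A / (y_{j 0}, y_{j 1}, …))) / N`, where `N` is the rank of `A` over `ℚ[f]`: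
the number `(deg K_C) / N`. -/
noncomputable def canonical {A : Type} [CommRing A] [Algebra ℚ A] [Algebra ℚ[X] A] {q : ℕ}
    (u : Fin q → ℕ) (y : ∀ j, Fin (u j + 1) → A) : ℝ :=
  q - 2 - (∑ j, (Module.finrank ℚ (A ⧸ Ideal.span (Set.range (y j))) : ℝ)) / Module.finrank ℚ[X] A

/-- The inequality of Vojta above `x ∈ K`, where `B` is the product of the different bases: for all
points `P = φ` of the curve above `x`, over all number fields `L` which contain `K`, and all finite
sets `S` of primes, if `(B) = 𝔞 𝔟` with a squarefree ideal `𝔞` prime to `𝔟`, then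
`m_S(F, P) + (deg K_C / N) h(x) ≤
  d(L) - d(K) + ε h(x) + (log N 𝔟) / [K : ℚ] + ∑_{p ∈ S} log p + C`. -/
def Vojta {K : Type} [Field K] [NumberField K] {A : Type} [CommRing A] [Algebra ℚ A]
    [Algebra ℚ[X] A] {q : ℕ} (u : Fin q → ℕ) (y : ∀ j, Fin (u j + 1) → A) (B : 𝓞 K) (x : K)
    (ε C : ℝ) : Prop :=
  ∀ (L : Type) [Field L] [NumberField L] [Algebra K L] (φ : A →+* L) (S : Finset ℕ),
    φ (coord A) = algebraMap K L x → (∀ p ∈ S, p.Prime) →
    ∀ 𝔞 𝔟 : Ideal (𝓞 K), Ideal.span {B} = 𝔞 * 𝔟 → Squarefree 𝔞 → IsCoprime 𝔞 𝔟 →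
      proximity S u y L φ + canonical u y * height x ≤
        logDisc L - logDisc K + ε * height x + Real.log (Ideal.absNorm 𝔟) / Module.finrank ℚ K +
          ∑ p ∈ S, Real.log p + C

open Classical in
private lemma proximity_eq {A : Type} [CommRing A] (S : Finset ℕ) {q : ℕ}
    (u : Fin q → ℕ) (y : ∀ j, Fin (u j + 1) → A)
    (L : Type) [Field L] [NumberField L] (φ : A →+* L) (hz : ∀ j, φ (y j 0) ≠ 0) :
    proximity S u y L φ = Pool.Agent.Q183.VC.W S u y L φ / Module.finrank ℚ L := by
  unfold proximity Pool.Agent.Q183.VC.W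
  refine congrArg (fun t : ℝ => t / Module.finrank ℚ L) ?_
  rw [Finset.sum_add_distrib]
  congr 1
  · rw [Finset.sum_comm]
    refine Finset.sum_congr rfl fun w _ => ?_
    rw [Finset.mul_sum]
    rfl
  · unfold Pool.Agent.W223.AC.mS
    rw [← finsum_sum_comm]
    · refine finsum_congr fun v => ?_
      split_ifs
      · rfl
      · rw [Finset.sum_const_zero]
    · intro j _
      refine (Pool.Agent.Q183.VC.lamF_finite (y j) φ (hz j)).subset fun v hv => ?_
      rw [Function.mem_support] at hv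
      intro h
      apply hv
      rw [h, ite_self]

private theorem height_eq {K : Type} [Field K] [NumberField K] (x : K) :
    Real.log (Height.mulHeight₁ x) = Module.finrank ℚ K * height x :=
  Pool.Agent.W223.AC.MK.height_eq x

private theorem height_nonneg {K : Type} [Field K] [NumberField K] (x : K) : 0 ≤ height x := by
  have h1 := height_eq x
  have h2 : 0 ≤ Real.log (Height.mulHeight₁ x) := Real.log_nonneg (Height.one_le_mulHeight₁ _)
  have h3 : (0 : ℝ) < Module.finrank ℚ K := by exact_mod_cast Module.finrank_pos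
  rw [h1] at h2
  exact nonneg_of_mul_nonneg_right h2 h3

/-- the exceptional values of a polynomial have bounded height -/
private theorem roots_bound {K : Type} [Field K] [NumberField K] {G : ℚ[X]} (hG : G ≠ 0) :
    ∃ H : ℝ, 0 ≤ H ∧ ∀ x : K, Polynomial.aeval x G = 0 → height x ≤ H := by
  have hfin : (G.rootSet K).Finite := G.rootSet_finite K
  obtain ⟨H, hH⟩ := (hfin.image height).bddAbove
  refine ⟨max H 0, le_max_right _ _, fun x hx => le_max_of_le_left (hH ⟨x, ?_, rfl⟩)⟩
  exact (Polynomial.mem_rootSet_of_ne hG).2 hx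

private theorem logHeight_div {K : Type} [Field K] [NumberField K] (X : Fin (1 + 1) → 𝓞 K)
    (hX : X 1 ≠ 0) : Height.logHeight (fun k => (X k : K)) =
      Module.finrank ℚ K * height ((X 0 : K) / (X 1 : K)) := by
  have h1 : (X 1 : K) ≠ 0 := RingOfIntegers.coe_ne_zero_iff.mpr hX
  have h2 : (fun k => (X k : K)) = (X 1 : K) • (![(X 0 : K) / (X 1 : K), 1] : Fin 2 → K) := by
    funext k
    rw [Pi.smul_apply, smul_eq_mul]
    fin_cases k
    · show (X 0 : K) = (X 1 : K) * ((X 0 : K) / (X 1 : K))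
      field_simp
    · show (X 1 : K) = (X 1 : K) * 1
      rw [mul_one]
  rw [h2, Height.logHeight_smul_eq_logHeight _ h1, ← height_eq,
    ← Height.logHeight₁_eq_log_mulHeight₁, Height.logHeight₁_eq_logHeight]

/-- **The deduction** from the truncated inequality for the points `a_j` of the line. -/
private theorem vojta_of {K : Type} [Field K] [NumberField K] {A : Type} [CommRing A]
    [IsDedekindDomain A] [Algebra ℚ A] [Algebra ℚ[X] A] [IsScalarTower ℚ ℚ[X] A]
    [Module.Finite ℚ[X] A] [FaithfulSMul ℚ[X] A] {q : ℕ} (hq : 2 ≤ q) (a : Fin q → ℚ)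
    (ha : Function.Injective a) (u : Fin q → ℕ) (y : ∀ j, Fin (u j + 1) → A)
    (hy0 : ∀ j, y j 0 = coord A - algebraMap ℚ[X] A (.C (a j)))
    (hyr : ∀ j i, y j i ∈ (Ideal.span {coord A - algebraMap ℚ[X] A (.C (a j))}).radical)
    {ε : ℝ} (hε : 0 < ε) :
    ∃ (T : Set (HeightOneSpectrum (𝓞 K))) (D : ℝ), T.Finite ∧ 0 ≤ D ∧
      ∀ {J : Type} [Fintype J] (g : J → ℕ → 𝓞 K) (e : Fin q → J → ℕ) (X : Fin 2 → ℕ → 𝓞 K) (C : ℝ),
        0 ≤ C → ∀ s : ℕ, X 1 s ≠ 0 → (∀ j, (X 0 s : K) / (X 1 s : K) ≠ (a j : K)) →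
        Pool.Agent.Q183.AM.TIneq (n := 1) T (Pool.Agent.Q183.VC.eqn K a) g e X (Real.exp C) s →
        Vojta u y (∏ j ∈ uneq e, g j s) ((X 0 s : K) / (X 1 s : K)) ε
          (D + C / Module.finrank ℚ K) := by
  classical
  have hq0 : 0 < q := by omega
  obtain ⟨M, G, C₁, hM, hG, hC₁, hmas⟩ := Pool.Agent.Q183.VC.master hq0 a u y hy0 hyr hε
  obtain ⟨C₂, hC₂, htriv⟩ := Pool.Agent.Q183.VC.W_le a u y hy0
  obtain ⟨H₀, hH₀, hroots⟩ := roots_bound (K := K) hG
  refine ⟨Pool.Agent.Q183.VC.badT K M.primeFactors a,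
    C₁ + C₂ + q * H₀ + |canonical u y| * H₀,
    Pool.Agent.Q183.VC.badT_finite _ (fun p hp => (Nat.prime_of_mem_primeFactors hp).ne_zero) a ha,
    by positivity, ?_⟩
  intro J _ g e X C hC s hX1 hxa hT L _ _ _ φ S hφ hS 𝔞 𝔟 k1 k2 k3
  set x : K := (X 0 s : K) / (X 1 s : K) with hx
  set n : ℝ := (Module.finrank ℚ K : ℝ) with hn
  set m : ℝ := (Module.finrank K L : ℝ) with hm
  have hn0 : 0 < n := by rw [hn]; exact_mod_cast Module.finrank_pos
  have hm0 : 0 < m := by rw [hm]; exact_mod_cast Module.finrank_pos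
  have htow : (Module.finrank ℚ L : ℝ) = n * m := by
    rw [hn, hm]
    exact_mod_cast (Module.finrank_mul_finrank ℚ K L).symm
  have hnm : 0 < n * m := mul_pos hn0 hm0
  have hz0 : ∀ j, φ (y j 0) ≠ 0 := by
    intro j h
    rw [hy0 j, map_sub, hφ, sub_eq_zero] at h
    apply hxa j
    apply FaithfulSMul.algebraMap_injective K L
    rw [h, map_ratCast]
    exact eq_ratCast (φ.comp ((algebraMap ℚ[X] A).comp Polynomial.C)) (a j)
  have hh : 0 ≤ height x := height_nonneg x
  have hR : 0 ≤ ∑ p ∈ S, Real.log p := Finset.sum_nonneg fun p _ => Real.log_natCast_nonneg _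
  have hN : 0 ≤ Real.log (Ideal.absNorm 𝔟) := Real.log_natCast_nonneg _
  have hdL : logDisc L = Real.log |(discr L : ℝ)| / (n * m) := by
    rw [← htow]
    rfl
  have hdK : logDisc K = m * Real.log |(discr K : ℝ)| / (n * m) := by
    unfold logDisc
    rw [← hn]
    field_simp
  have hprox := proximity_eq S u y L φ hz0
  rw [htow] at hprox
  by_cases hGx : Polynomial.aeval x G = 0
  · -- a point of bounded height
    have h1 := hroots x hGx
    have h2 := htriv K x hxa L φ S hφ
    rw [← hm, htow, height_eq x, ← hn] at h2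
    have h3 := Pool.Agent.Q183.VC.disc_le K L
    rw [← hm] at h3
    have h4 : proximity S u y L φ ≤ q * height x + C₂ := by
      rw [hprox, div_le_iff₀ hnm]
      linarith [h2]
    have h5 : logDisc K ≤ logDisc L := by
      rw [hdL, hdK]
      exact div_le_div_of_nonneg_right h3 hnm.le
    have h6 : canonical u y * height x ≤ |canonical u y| * H₀ :=
      (mul_le_mul_of_nonneg_right (le_abs_self _) hh).trans
        (mul_le_mul_of_nonneg_left h1 (abs_nonneg _))
    have h7 : (q : ℝ) * height x ≤ q * H₀ := mul_le_mul_of_nonneg_left h1 (Nat.cast_nonneg _)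
    have h8 : 0 ≤ ε * height x := mul_nonneg hε.le hh
    have h9 : 0 ≤ Real.log (Ideal.absNorm 𝔟) / n := div_nonneg hN hn0.le
    have h10 : 0 ≤ C / n := div_nonneg hC hn0.le
    linarith
  · obtain ⟨-, h1⟩ := hmas K x hxa hGx L φ S hφ hS
    have hne : ∀ i, ∑ k, ((Pool.Agent.Q183.VC.eqn K a i k : 𝓞 K) : K) * (X k s : K) ≠ 0 := by
      intro i h0
      rw [Pool.Agent.Q183.VC.eqn_form a i fun k => (X k s : K)] at h0
      apply hxa i
      have h2 : (X 1 s : K) ≠ 0 := RingOfIntegers.coe_ne_zero_iff.mpr hX1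
      have h3 : ((a i).den : K) ≠ 0 := by exact_mod_cast (a i).den_nz
      rw [Rat.cast_def, div_eq_div_iff h2 h3]
      linear_combination h0
    have h2 := Pool.Agent.Q183.VC.ntr_le_cnt (S := M.primeFactors) a (fun k => X k s) hX1 hne
    have h3 := hT.2 𝔞 𝔟 k1 k2 k3
    rw [max_eq_left (Real.one_le_exp hC), Real.log_exp, logHeight_div (fun k => X k s) hX1,
      ← hn, Fintype.card_fin] at h3
    have h4 : (((1 + 1).choose 2 : ℕ) : ℝ) = 1 := by norm_num
    rw [h4, one_mul] at h3
    set N := Pool.Agent.W223.VD.cnt M.primeFactors (fun j => Pool.Agent.W223.AC.pt (a j)) x with hN'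
    have h5 : ((q : ℝ) - 2) * (n * height x) ≤ N + Real.log (Ideal.absNorm 𝔟) + C := by
      push_cast at h3
      have e1 : ((q : ℝ) - (1 + 1)) * (n * height x) = (q - 2) * (n * height x) := by ring
      rw [e1] at h3
      linarith
    rw [← hm, htow, height_eq x, ← hn] at h1
    set μ : ℝ := (∑ j, (Module.finrank ℚ (A ⧸ Ideal.span (Set.range (y j))) : ℝ)) /
      Module.finrank ℚ[X] A with hμ
    have hcan : canonical u y = q - 2 - μ := rfl
    rw [hcan, hprox, hdL, hdK]
    have h6 := mul_le_mul_of_nonneg_left h5 hm0.le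
    set V := Pool.Agent.Q183.VC.W S u y L φ with hV
    set R := ∑ p ∈ S, Real.log (p : ℝ) with hR'
    set DL := Real.log |(discr L : ℝ)| with hDL
    set DK := Real.log |(discr K : ℝ)| with hDK
    set Nb := Real.log (Ideal.absNorm 𝔟 : ℝ) with hNb
    have h7 : V + (q - 2 - μ) * (n * m * height x) ≤
        DL - m * DK + ε * (n * m * height x) + m * Nb + n * m * R + m * C + n * m * C₁ := by
      have e1 : m * ((q - 2) * (n * height x)) = (q - 2) * (n * m * height x) := by ring
      have e2 : m * (N + Nb + C) = m * N + m * Nb + m * C := by ring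
      have e3 : (q - μ) * (m * (n * height x)) = (q - μ) * (n * m * height x) := by ring
      have e4 : (q + ε) * (m * (n * height x)) = (q + ε) * (n * m * height x) := by ring
      rw [e1, e2] at h6
      rw [e3, e4] at h1
      have e5 : (q - 2 - μ) * (n * m * height x) = (q - 2) * (n * m * height x) +
        (q - μ) * (n * m * height x) - q * (n * m * height x) := by ring
      have e6 : (q + ε) * (n * m * height x) = q * (n * m * height x) +
        ε * (n * m * height x) := by ring
      rw [e5]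
      rw [e6] at h1
      linarith
    have h8 : V / (n * m) + (q - 2 - μ) * height x ≤ DL / (n * m) - m * DK / (n * m) +
        ε * height x + Nb / n + R + (C₁ + C / n) := by
      have e1 : V / (n * m) + (q - 2 - μ) * height x =
          (V + (q - 2 - μ) * (n * m * height x)) / (n * m) := by
        field_simp
      have e2 : DL / (n * m) - m * DK / (n * m) + ε * height x + Nb / n + R + (C₁ + C / n) =
          (DL - m * DK + ε * (n * m * height x) + m * Nb + n * m * R + m * C + n * m * C₁) /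
            (n * m) := by
        field_simp
        ring
      rw [e1, e2]
      exact div_le_div_of_nonneg_right h7 hnm.le
    have h9 : 0 ≤ C₂ + q * H₀ + |q - 2 - μ| * H₀ := by positivity
    linarith

/-- **Main theorem.** Let `X_0`, `X_1` and the bases `g_l` have linear recurrences, and let the values
`den(a_j) X_0(s) - num(a_j) X_1(s)` be the `κ_j μ_j ^ s ∏ g_l(s) ^ e_jl`; let `x(s) = X_0(s) / X_1(s)`.
(1) For all `η, ε > 0` there is a constant `C` such that the inequality of Vojta with `ε` and `C`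
holds for all points above `x(s)`, for all `s` with `X_1(s) ≠ 0` and `x(s) ≠ a_j` except for at most
`η N` among any `N` consecutive integers, for `N` large and from some point on.
(2) For all `δ, ε > 0` there is a constant `C` such that it holds with `ε` and `C + δ s` for all `s`
with `X_1(s) ≠ 0` and `x(s) ≠ a_j`.
(3) For all `c, ε > 0` there is a constant `C` such that it holds with `ε` and `C` for all `s` with
`X_1(s) ≠ 0`, `x(s) ≠ a_j` and `h(x(s)) ≥ c s`. -/
theorem result {K : Type} [Field K] [NumberField K] {J : Type} [Fintype J] (g : J → ℕ → 𝓞 K)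
    (hg : ∀ j, ∃ E : LinearRecurrence (𝓞 K), E.IsSolution (g j))
    (X : Fin 2 → ℕ → 𝓞 K) (hX : ∀ k, ∃ E : LinearRecurrence (𝓞 K), E.IsSolution (X k))
    {q : ℕ} (hq : 2 ≤ q) (a : Fin q → ℚ) (ha : Function.Injective a)
    (κ μ : Fin q → 𝓞 K) (hμ : ∀ i, μ i ≠ 0) (e : Fin q → J → ℕ)
    (hL : ∀ i s, ((a i).den : 𝓞 K) * X 0 s - ((a i).num : 𝓞 K) * X 1 s = val κ μ g e i s)
    {A : Type} [CommRing A] [IsDedekindDomain A] [Algebra ℚ A] [Algebra ℚ[X] A]
    [IsScalarTower ℚ ℚ[X] A] [Module.Finite ℚ[X] A] [FaithfulSMul ℚ[X] A]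
    (u : Fin q → ℕ) (y : ∀ j, Fin (u j + 1) → A)
    (hy0 : ∀ j, y j 0 = coord A - algebraMap ℚ[X] A (.C (a j)))
    (hyr : ∀ j i, y j i ∈ (Ideal.span {coord A - algebraMap ℚ[X] A (.C (a j))}).radical) :
    let x : ℕ → K := fun s => (X 0 s : K) / (X 1 s : K)
    let Off : ℕ → Prop := fun s => X 1 s ≠ 0 ∧ ∀ j, x s ≠ (a j : K)
    let V : ℝ → ℝ → ℕ → Prop := fun ε C s => Vojta u y (∏ j ∈ uneq e, g j s) (x s) ε C
    (∀ η ε : ℝ, 0 < η → 0 < ε → ∃ (C : ℝ) (T z : ℕ), ∀ t N : ℕ, z ≤ t → T ≤ N →
      (({s | t ≤ s ∧ s < t + N ∧ Off s ∧ ¬ V ε C s}.ncard : ℕ) : ℝ) ≤ η * N) ∧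
    (∀ δ ε : ℝ, 0 < δ → 0 < ε → ∃ C : ℝ, ∀ s : ℕ, Off s → V ε (C + δ * s) s) ∧
    ∀ c ε : ℝ, 0 < c → 0 < ε → ∃ C : ℝ, ∀ s : ℕ, Off s → c * s ≤ height (x s) → V ε C s := by
  classical
  intro x Off V
  have hn0 : (0 : ℝ) < Module.finrank ℚ K := by exact_mod_cast Module.finrank_pos
  have hI : 1 + 1 ≤ Fintype.card (Fin q) := by rw [Fintype.card_fin]; exact hq
  have hL' : ∀ i t, ∑ k, Pool.Agent.Q183.VC.eqn K a i k * X k t =
      Pool.Agent.Q183.AM.hval κ μ g e i t := by
    intro i t
    refine Eq.trans ?_ (hL i t)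
    rw [Fin.sum_univ_two]
    show ((a i).den : 𝓞 K) * X 0 t + (-((a i).num : 𝓞 K)) * X 1 t = _
    ring
  have hgen : ∀ B : Fin (1 + 1) ↪ Fin q,
      (Matrix.of fun i k => Pool.Agent.Q183.VC.eqn K a (B i) k).det ≠ 0 :=
    fun B => Pool.Agent.Q183.VC.eqn_det a ha B
  have hoff : ∀ s, Off s → ∀ i, Pool.Agent.Q183.AM.hval κ μ g e i s ≠ 0 := by
    rintro s ⟨h1, h2⟩ i h3
    rw [← hL' i s] at h3
    have h4 : ∑ k, ((Pool.Agent.Q183.VC.eqn K a i k : 𝓞 K) : K) * (X k s : K) = 0 := by
      have h5 := congrArg (algebraMap (𝓞 K) K) h3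
      rw [map_sum, map_zero] at h5
      rw [← h5]
      exact Finset.sum_congr rfl fun k _ => (map_mul (algebraMap (𝓞 K) K) _ _).symm
    rw [Pool.Agent.Q183.VC.eqn_form a i fun k => (X k s : K)] at h4
    apply h2 i
    have h5 : (X 1 s : K) ≠ 0 := RingOfIntegers.coe_ne_zero_iff.mpr h1
    have h6 : ((a i).den : K) ≠ 0 := by exact_mod_cast (a i).den_nz
    show (X 0 s : K) / (X 1 s : K) = _
    rw [Rat.cast_def, div_eq_div_iff h5 h6]
    linear_combination h4
  have part2 : ∀ δ ε : ℝ, 0 < δ → 0 < ε → ∃ C : ℝ, ∀ s : ℕ, Off s → V ε (C + δ * s) s := by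
    intro δ ε hδ hε
    obtain ⟨T, D, hT, hD, hdeg⟩ := vojta_of (K := K) hq a ha u y hy0 hyr hε
    have hEE := Pool.Agent.Q183.AM.hlog1 Pool.Agent.Q183.AM.mEE hI g hg X hX
      (Pool.Agent.Q183.VC.eqn K a) hgen κ μ hμ e hL' T hT
    have mono : Pool.Agent.Q183.AR.MonoC fun C s =>
        (∀ i, Pool.Agent.Q183.AM.hval κ μ g e i s ≠ 0) →
        Pool.Agent.Q183.AM.TIneq (n := 1) T (Pool.Agent.Q183.VC.eqn K a) g e X C s :=
      fun C C' s hCC h1 h2 => Pool.Agent.Q183.AM.tineq_mono T _ g e X C C' s hCC (h1 h2)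
    have triv : ∀ s, ∃ C, (∀ i, Pool.Agent.Q183.AM.hval κ μ g e i s ≠ 0) →
        Pool.Agent.Q183.AM.TIneq (n := 1) T (Pool.Agent.Q183.VC.eqn K a) g e X C s := by
      intro s
      set B : ℝ := ((Fintype.card (Fin q) : ℝ) - ((1 : ℕ) + 1)) *
        Height.logHeight (fun k => (X k s : K)) with hB
      refine ⟨Real.exp |B|, fun h => ?_⟩
      have h0 := le_abs_self B
      unfold Pool.Agent.Q183.AM.TIneq
      rw [max_eq_left (Real.one_le_exp (abs_nonneg _)), Real.log_exp, ← hB]
      refine ⟨?_, fun 𝔞 𝔟 _ _ _ => ?_⟩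
      · have := Pool.Agent.Q183.AM.sum_nonneg' (n := 1) h
        linarith
      · have h5 := Pool.Agent.Q183.AM.Ntr_nonneg T 1
          (fun i k => ((Pool.Agent.Q183.VC.eqn K a i k : 𝓞 K) : K)) (fun k => (X k s : K))
          (fun i => by
            have h6 : ∑ k, ((Pool.Agent.Q183.VC.eqn K a i k : 𝓞 K) : K) * (X k s : K) =
                ((∑ k, Pool.Agent.Q183.VC.eqn K a i k * X k s : 𝓞 K) : K) := by
              simp only [map_sum, map_mul]
            rw [h6, hL' i s]
            exact RingOfIntegers.coe_ne_zero_iff.mpr (h i))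
        have h6 : 0 ≤ (((1 + 1).choose 2 : ℕ) : ℝ) * Real.log (Ideal.absNorm 𝔟) :=
          mul_nonneg (Nat.cast_nonneg _) (Real.log_natCast_nonneg _)
        linarith
    obtain ⟨C, hC, h⟩ := Pool.Agent.Q183.AM.ee_form hEE mono triv
      (δ * Module.finrank ℚ K) (mul_pos hδ hn0)
    refine ⟨D + C / Module.finrank ℚ K, fun s hs => ?_⟩
    have h1 := hdeg g e X (C + δ * Module.finrank ℚ K * s) (by positivity) s hs.1 hs.2
      (h s (hoff s hs))
    have h2 : D + (C + δ * Module.finrank ℚ K * s) / Module.finrank ℚ K =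
        D + C / Module.finrank ℚ K + δ * s := by
      field_simp
      ring
    rw [h2] at h1
    exact h1
  refine ⟨fun η ε hη hε => ?_, part2, fun c ε hc hε => ?_⟩
  · obtain ⟨T, D, hT, hD, hdeg⟩ := vojta_of (K := K) hq a ha u y hy0 hyr hε
    have hAA := Pool.Agent.Q183.AM.hlog1 Pool.Agent.Q183.AM.mAA hI g hg X hX
      (Pool.Agent.Q183.VC.eqn K a) hgen κ μ hμ e hL' T hT
    obtain ⟨C, T', z, hC, h⟩ := Pool.Agent.Q183.AM.aa_form hAA η hη
    refine ⟨D + C / Module.finrank ℚ K, T', z, fun t N ht hN =>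
      Pool.Agent.Q183.AM.ncard_form (h t N ht hN) ?_⟩
    rintro s ⟨k1, k2⟩ k3
    exact k2 (hdeg g e X C hC s k1.1 k1.2 (k3 (hoff s k1)))
  · obtain ⟨C, h⟩ := part2 (ε / 2 * c) (ε / 2) (by positivity) (by positivity)
    refine ⟨C, fun s hs hcs L _ _ _ φ S hφ hS 𝔞 𝔟 h1 h2 h3 => ?_⟩
    refine (h s hs L φ S hφ hS 𝔞 𝔟 h1 h2 h3).trans ?_
    have h4 : ε / 2 * c * s ≤ ε / 2 * height (x s) := by
      rw [mul_assoc]
      exact mul_le_mul_of_nonneg_left hcs (by positivity)
    have h5 : ε * height (x s) = ε / 2 * height (x s) + ε / 2 * height (x s) := by ring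
    rw [h5]
    linarith

end Pool.Agent.Results.MP_6f1c57_nt.AlongRecurrences
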