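import Mathlib
import Pool.Agent.Q273.QP.All

/-!
# The height inequality with discriminant for all quadratic points near almost every adele

An algebraic number `x` of degree at most two is given with its minimal polynomial `f ∈ ℤ[X]`. An
integral adelic point `w = (ξ, η)` consists of a real number `ξ` and of a `p`-adic integer `η_p` for
every prime `p`, and `m_V(w, x)` is the proximity function of `w` at the infinite place and at the primes
in the finite set `V`. For a rational point `(u : v)` of the line, `N_S(x)` is its truncated counting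
function and `λ_S(x)` its proximity function at the infinite place and the primes in `S`; `h(x)` is the
absolute logarithmic height and `d(x)` the logarithmic discriminant.

For almost every adelic point `w` (Lebesgue measure times Haar measure) and all finite `V`, all points of
degree at most two satisfy: Vojta's inequality `m_V(w, x) + (h(x) - N_S(x)) ≤ (2 + ε) h(x) + d(x) / 2 + C`
with the target `w` and with truncated counting function at any one rational point; the same with any
two rational points and `[ℚ(x) : ℚ] + 1 + ε` in place of the discriminant term, which is optimal; and the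
height inequality for every divisor `D` of `q` rational points, in the truncated form
`∑ (h - N_S) - 2 h ≤ d + ε h + C` and in the form `m(D, x) - 2 h ≤ d + ε h + C`, whenever
`(3 q - 2) h(x) ≤ (q + 2) m_V(w, x)`.
-/

set_option autoImplicit false

open MeasureTheory Polynomial

namespace Pool.Agent.Results.MP_6f1c57_nt.QuadraticPointsNearAdeles

/-- the product of the rings of `p`-adic integers over all primes `p`, with the product topology -/
abbrev ZHat : Type := (p : Nat.Primes) → @PadicInt p.1 ⟨p.2⟩

/-- `f` is the minimal polynomial over `ℤ` of the algebraic number `x` of degree at most two. -/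
def IsPoint (f : ℤ[X]) (x : ℂ) : Prop :=
  Irreducible f ∧ 1 ≤ f.natDegree ∧ f.natDegree ≤ 2 ∧ aeval x f = 0

/-- The absolute logarithmic height `(log M(f)) / deg f` of the roots of an irreducible `f ∈ ℤ[X]`
(`M` is the Mahler measure). -/
noncomputable def height (f : ℤ[X]) : ℝ :=
  Real.log (f.map (Int.castRingHom ℂ)).mahlerMeasure / f.natDegree

/-- The proximity function of the real point `ξ`: the average over the conjugates `z` of `x`, i.e.
the roots of `f`, of `log (max(1,|z|) max(1,|ξ|) / |ξ - z|)`. -/
noncomputable def proxInf (ξ : ℝ) (f : ℤ[X]) : ℝ :=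
  ((f.map (Int.castRingHom ℂ)).roots.map fun z =>
    Real.log (max 1 ‖z‖ * max 1 |ξ| / ‖(ξ : ℂ) - z‖)).sum / f.natDegree

/-- The proximity function of the `p`-adic integer `η`, `-log |f(η)|_p / deg f`: for primitive `f`
this is the average over the conjugates `z` of `x` over `ℚ_p` of `log (max(1,|z|_p) / |η - z|_p)`. -/
noncomputable def proxP (p : Nat.Primes) (η : @PadicInt p.1 ⟨p.2⟩) (f : ℤ[X]) : ℝ :=
  haveI : Fact p.1.Prime := ⟨p.2⟩
  Real.log ‖aeval η f‖⁻¹ / f.natDegree

/-- the proximity function of the adelic point `w` at the infinite place and the primes of `V` -/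
noncomputable def prox (V : Finset Nat.Primes) (w : ℝ × ZHat) (f : ℤ[X]) : ℝ :=
  proxInf w.1 f + ∑ p ∈ V, proxP p (w.2 p) f

/-- the value at `(u, v)` of the binary form of degree `deg f` given by `f`: for coprime `u`, `v` the
norm of the point `x` with respect to the rational point `(u : v)` -/
def value (u v : ℤ) (f : ℤ[X]) : ℤ :=
  ∑ i ∈ Finset.range (f.natDegree + 1), f.coeff i * u ^ i * v ^ (f.natDegree - i)

/-- The truncated counting function of the rational point `(u : v)` outside `S`: `(1 / deg f) ∑ log p`,
the sum over the primes `p` outside `S` which divide the value of `f` at `(u, v)`. -/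
noncomputable def N1 (S : Finset ℕ) (u v : ℤ) (f : ℤ[X]) : ℝ :=
  (∑ p ∈ (value u v f).natAbs.primeFactors \ S, Real.log p) / f.natDegree

/-- the proximity function of the rational point `(u : v)` at the infinite place and the primes of
`S` -/
noncomputable def lam (S : Finset ℕ) (u v : ℤ) (f : ℤ[X]) : ℝ :=
  (((f.map (Int.castRingHom ℂ)).roots.map fun z =>
    Real.log (max 1 ‖z‖ * max |(u : ℝ)| |(v : ℝ)| / ‖(u : ℂ) - v * z‖)).sum +
      ∑ p ∈ S, (padicValInt p (value u v f) : ℝ) * Real.log p) / f.natDegree

open Classical in
/-- The logarithmic discriminant `d(x)` of the field `ℚ(x)`. -/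
noncomputable def logDisc (x : ℂ) : ℝ :=
  if _ : NumberField (IntermediateField.adjoin ℚ ({x} : Set ℂ)) then
    Real.log |(NumberField.discr (IntermediateField.adjoin ℚ ({x} : Set ℂ)) : ℝ)| /
      Module.finrank ℚ (IntermediateField.adjoin ℚ ({x} : Set ℂ)) else 0

/-- **Quadratic points near almost every adele.** Let `μ` be a finite translation invariant Borel
measure on the compact group `ZHat` (a multiple of Haar measure). For almost every `w = (ξ, η)` with
respect to the product of Lebesgue measure and `μ` and all finite sets `V` of primes: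
(1) for every finite set `S`, every rational point `(u : v)` and every `ε > 0` there is `C` such that all
`x ≠ (u : v)` of degree at most two satisfy `m_V + (h - N_S) ≤ (2 + ε) h + d / 2 + C`;
(2) for every finite set `S`, all distinct rational points `(u : v)`, `(u' : v')` and every `ε > 0` there
is `C` such that all other `x` of degree at most two satisfy
`m_V + (h - N_S) + (h - N'_S) ≤ (deg x + 1 + ε) h + C`;
(3) there is `C` such that infinitely many `x` of degree two satisfy `3 h - C ≤ m_∞ + (h - N)`, `N` the
counting function of the point `(1 : 0)` at all primes;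
(4) for every finite set `S` of primes, all `q` and all distinct rational points `(u_i : v_i)`, `i < q`,
and every `ε > 0` there is `C` such that all other `x` of degree at most two with
`(3 q - 2) h ≤ (q + 2) m_V` satisfy `∑ (h - N_S,i) - 2 h ≤ d + ε h + C` and
`∑ λ_S,i - 2 h ≤ d + ε h + C`. -/
theorem result [MeasurableSpace ZHat] [BorelSpace ZHat] (μ : Measure ZHat) [IsFiniteMeasure μ]
    [μ.IsAddLeftInvariant] :
    ∀ᵐ w : ℝ × ZHat ∂(volume.prod μ), ∀ V : Finset Nat.Primes,
      (∀ (S : Finset ℕ) (u v : ℤ), IsCoprime u v → ∀ ε : ℝ, 0 < ε → ∃ C : ℝ,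
        ∀ (f : ℤ[X]) (x : ℂ), IsPoint f x → value u v f ≠ 0 →
          prox V w f + (height f - N1 S u v f) ≤ (2 + ε) * height f + logDisc x / 2 + C) ∧
      (∀ (S : Finset ℕ) (u v u' v' : ℤ), u * v' - u' * v ≠ 0 → ∀ ε : ℝ, 0 < ε → ∃ C : ℝ,
        ∀ (f : ℤ[X]) (x : ℂ), IsPoint f x → value u v f ≠ 0 → value u' v' f ≠ 0 →
          prox V w f + (height f - N1 S u v f) + (height f - N1 S u' v' f) ≤
            ((f.natDegree : ℝ) + 1 + ε) * height f + C) ∧
      (∃ C : ℝ, {f : ℤ[X] | Irreducible f ∧ f.natDegree = 2 ∧
        3 * height f - C ≤ proxInf w.1 f + (height f - N1 ∅ 1 0 f)}.Infinite) ∧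
      ∀ (S : Finset ℕ) (q : ℕ) (u v : Fin q → ℤ), (∀ p ∈ S, p.Prime) →
        (∀ i, IsCoprime (u i) (v i)) → (∀ i j, i ≠ j → u i * v j - u j * v i ≠ 0) →
        ∀ ε : ℝ, 0 < ε → ∃ C : ℝ, ∀ (f : ℤ[X]) (x : ℂ), IsPoint f x →
          (∀ i, value (u i) (v i) f ≠ 0) → (3 * (q : ℝ) - 2) * height f ≤ (q + 2) * prox V w f →
            ∑ i, (height f - N1 S (u i) (v i) f) + (-2) * height f ≤
              logDisc x + ε * height f + C ∧
            ∑ i, lam S (u i) (v i) f + (-2) * height f ≤ logDisc x + ε * height f + C :=
  Q273.QP.lawq μ

end Pool.Agent.Results.MP_6f1c57_nt.QuadraticPointsNearAdeles
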