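import Mathlib
import Pool.Agent.Q128.SDF.Comp
import Pool.Agent.Results.MP_6f1c57_nt.AllFieldsHeightInequality

/-!
# The height inequality for all algebraic points of all curves above the points of the line that are
composed of numbers with small digits

Let `C` be a smooth projective curve over a number field, `D` a reduced effective divisor on `C`
and `f : C → ℙ¹` a finite map of degree `N` over `ℚ` which is unramified outside the fibres over
three rational points `a_0, a_1, a_2` and maps the points of `D` to the `a_j` (such a map exists by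
Belyi's theorem; we may suppose that `a_j ≠ ∞`). Let `A` be the ring of functions on `C` with poles
only over `∞`: a Dedekind domain, finite over `ℚ[f]`. Let `y_{j 0} = f - a_j, y_{j 1}, …` be
generators of the radical of the ideal `(f - a_j)`, the ideal of the reduced fibre `F_j` over
`a_j`. Then `F = ∑ F_j ≥ D` and
`(deg K_C) / N = 1 - (∑_j dim (A / (y_{j 0}, y_{j 1}, …))) / N`.

The points `P` of `C` (not over `∞`) over a number field `L` are the homomorphisms `φ : A → L`, and
`λ_v(P) = ∑_j max(0, - log max_i |y_{j i}(P)|_v)` is a Weil function of `F` at `v`.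

We prove the height inequality `m(D, P) + h_K(P) ≤ d(P) + ε h(P)` for all points `P` of `C`, of
every degree and over all number fields `L`, above the points `x ∈ K`, `K ⊆ L`, of the line for
which the three numbers `x - a_j` are, up to fixed constants and a common factor, composed of numbers
with small digits in a large base `t`: without an exceptional set, without the constant `c`, and with
the gain `(1 - ε) log |N(t)| / [K : ℚ]`. There are many such points `x` already over `ℚ`; the points
of `C` above them have degree at most `N`.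
-/

set_option autoImplicit false

namespace Pool.Agent.Results.MP_6f1c57_nt.SmallDigitPoints

open IsDedekindDomain NumberField
open scoped Polynomial
open Polynomial (X C)
open Pool.Agent.Results.MP_6f1c57_nt.AllFieldsHeightInequality
  (height coord proximity logDisc degree)
open Pool.Agent.Results.MP_a793bb_nt.SmallDigitPoints (logN)
open Pool.Agent.Results.MP_71c16a_nt.SmallDigitPoints (Composed)

private lemma degree_same {A : Type} [CommRing A] [Algebra ℚ A] [Algebra ℚ[X] A]
    (u : Fin 3 → ℕ) (y : ∀ j, Fin (u j + 1) → A) :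
    degree u y = Pool.Agent.Results.MP_71c16a_nt.AllCurvesProximity.degree u y := by
  unfold degree Pool.Agent.Results.MP_71c16a_nt.AllCurvesProximity.degree
  push_cast
  rfl

private lemma prox_nonneg {A : Type} [CommRing A] (S : Finset ℕ) (u : Fin 3 → ℕ)
    (y : ∀ j, Fin (u j + 1) → A) (L : Type) [Field L] [NumberField L] (φ : A →+* L) :
    0 ≤ proximity S u y L φ := by
  have h : ∀ {s : ℕ} (c : Fin (s + 1) → ℝ),
      0 ≤ Pool.Agent.Results.MP_6f1c57_nt.AllFieldsHeightInequality.minusLog c :=
    fun c => le_max_left _ _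
  unfold proximity
  apply div_nonneg _ (Nat.cast_nonneg _)
  apply add_nonneg
  · exact Finset.sum_nonneg fun w _ => mul_nonneg (Nat.cast_nonneg _)
      (Finset.sum_nonneg fun j _ => h _)
  · apply finsum_nonneg
    intro v
    split_ifs
    · exact Finset.sum_nonneg fun j _ => h _
    · exact le_rfl

/-- `log |N(t)| / [K : ℚ] ≥ log T` if `x` is composed of numbers with small digits in base `t` -/
private lemma log_le {K : Type} [Field K] [NumberField K] {a : Fin 3 → ℚ} {D : ℕ} {δ T : ℝ}
    {t : 𝓞 K} {x : K} (hT : 1 ≤ T) (h : Composed a D δ T t x) : Real.log T ≤ logN t := by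
  obtain ⟨n, F, b, e, hsm, -⟩ := h
  have hd : (0 : ℝ) < Module.finrank ℚ K := by exact_mod_cast Module.finrank_pos
  have ht0 : t ≠ 0 := by
    rintro rfl
    obtain ⟨σ⟩ : Nonempty (K →+* ℂ) := inferInstance
    have h1 := hsm.base σ
    simp at h1
    linarith
  unfold Pool.Agent.Results.MP_a793bb_nt.SmallDigitPoints.logN
  rw [le_div_iff₀ hd, ← Pool.Agent.Q103.SD.NF.log_norm t ht0, mul_comm,
    ← InfinitePlace.sum_mult_eq]
  push_cast
  rw [Finset.sum_mul]
  apply Finset.sum_le_sum
  intro w _
  apply mul_le_mul_of_nonneg_left _ (Nat.cast_nonneg _)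
  apply Real.log_le_log (by linarith)
  rw [← InfinitePlace.norm_embedding_eq]
  exact hsm.base w.embedding

/-- **The height inequality above the points composed of numbers with small digits.** Let `A` be a
Dedekind domain, finite over `ℚ[f]` and containing it (the ring of functions of a smooth affine curve
which is finite over the `f`-line), let `a_0, a_1, a_2` be distinct rational numbers and
`y_{j 0} = f - a_j, y_{j 1}, …, y_{j u_j}` elements of the radical of the ideal `(f - a_j)`, for
instance generators.

(1) For all `D` and `ε > 0` there are `δ > 0` and `T₀` such that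
`m_S(F, P) + (degree - 2 - ε) h(x) + (1 - ε) log |N(t)| / [K : ℚ] ≤ d(L) + ∑_{p ∈ S} log p`
for all `T ≥ T₀`, all number fields `K`, all bases `t`, all `x ∈ K` composed of numbers with small
digits, all number fields `L` containing `K`, all points `P` of the curve over `L` with `f(P) = x` and
all finite sets `S` of primes. The constants do not depend on `K`, `L` and their degrees. In
particular `log |disc L| ≥ [L : ℚ] ((degree - 2 - ε) h(x) + (1 - ε) log |N(t)| / [K : ℚ])` for all
number fields `L` over which there is a point above `x`.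

(2) If the finite set `S` of primes is fixed, then for the same `δ`, a suitable `T₀` and all such
points `m_S(F, P) + (degree - 2) h(x) ≤ d(L) + ε h(x)`: the inequality of the problem with the
constant `0`, simultaneously for the points of all degrees.

(3) There is `c > 0` such that for all `D ≥ 2`, `δ > 0` and `T ≥ 1` and all large `X` at least `c X`
rational numbers `x` with `h(x) ≤ log X` are composed of numbers with small digits in some base. -/
theorem result :
    ∀ (A : Type) [CommRing A] [IsDedekindDomain A] [Algebra ℚ A] [Algebra ℚ[X] A]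
      [IsScalarTower ℚ ℚ[X] A] [Module.Finite ℚ[X] A] [FaithfulSMul ℚ[X] A]
      (a : Fin 3 → ℚ), Function.Injective a →
    ∀ (u : Fin 3 → ℕ) (y : ∀ j, Fin (u j + 1) → A),
    (∀ j, y j 0 = coord A - algebraMap ℚ[X] A (C (a j))) →
    (∀ j i, y j i ∈ (Ideal.span {coord A - algebraMap ℚ[X] A (C (a j))}).radical) →
    (∀ (D : ℕ) (ε : ℝ), 0 < ε → ∃ δ : ℝ, 0 < δ ∧
      (∃ T₀ : ℝ, 1 ≤ T₀ ∧ ∀ T : ℝ, T₀ ≤ T →
        ∀ (K : Type) [Field K] [NumberField K] (t : 𝓞 K) (x : K), Composed a D δ T t x →
        ∀ (L : Type) [Field L] [NumberField L] [Algebra K L] (φ : A →+* L),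
          φ (coord A) = algebraMap K L x →
          (∀ S : Finset ℕ, (∀ p ∈ S, p.Prime) →
            proximity S u y L φ + (degree u y - 2 - ε) * height x + (1 - ε) * logN t ≤
              logDisc L + ∑ p ∈ S, Real.log p) ∧
          Module.finrank ℚ L * ((degree u y - 2 - ε) * height x + (1 - ε) * logN t) ≤
            Real.log |(NumberField.discr L : ℝ)|) ∧
      (∀ S : Finset ℕ, (∀ p ∈ S, p.Prime) → ε < 1 → ∃ T₀ : ℝ, 1 ≤ T₀ ∧ ∀ T : ℝ, T₀ ≤ T →
        ∀ (K : Type) [Field K] [NumberField K] (t : 𝓞 K) (x : K), Composed a D δ T t x →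
        ∀ (L : Type) [Field L] [NumberField L] [Algebra K L] (φ : A →+* L),
          φ (coord A) = algebraMap K L x →
          proximity S u y L φ + (degree u y - 2) * height x ≤ logDisc L + ε * height x)) ∧
    (∃ c : ℝ, 0 < c ∧ ∀ (D : ℕ) (δ T : ℝ), 2 ≤ D → 0 < δ → 1 ≤ T → ∃ X₀ : ℝ, ∀ B : ℝ, X₀ ≤ B →
      ∃ E : Finset ℚ, c * B ≤ E.card ∧ ∀ x ∈ E, height x ≤ Real.log B ∧
        ∃ t : 𝓞 ℚ, Composed a D δ T t x) := by
  intro A _ _ _ _ _ _ _ a ha u y hy0 hyr
  constructor
  · intro D ε hε
    obtain ⟨δ, hδ, T₀, hT₀, h⟩ := Pool.Agent.Results.MP_71c16a_nt.SmallDigitPoints.result A a ha u y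
      hy0 hyr D ε hε
    have h' : ∀ T : ℝ, T₀ ≤ T →
        ∀ (K : Type) [Field K] [NumberField K] (t : 𝓞 K) (x : K), Composed a D δ T t x →
        ∀ (L : Type) [Field L] [NumberField L] [Algebra K L] (φ : A →+* L),
          φ (coord A) = algebraMap K L x → ∀ S : Finset ℕ, (∀ p ∈ S, p.Prime) →
            proximity S u y L φ + (degree u y - 2 - ε) * height x + (1 - ε) * logN t ≤
              logDisc L + ∑ p ∈ S, Real.log p := by
      intro T hT K _ _ t x hx L _ _ _ φ hφ S hS
      have h1 := h T hT K t x hx L φ S hφ hS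
      rw [← degree_same] at h1
      exact h1
    refine ⟨δ, hδ, ⟨T₀, hT₀, ?_⟩, ?_⟩
    · intro T hT K _ _ t x hx L _ _ _ φ hφ
      refine ⟨h' T hT K t x hx L φ hφ, ?_⟩
      have h1 := h' T hT K t x hx L φ hφ ∅ (by simp)
      have h2 := prox_nonneg ∅ u y L φ
      rw [Finset.sum_empty, add_zero] at h1
      have hd : (0 : ℝ) < Module.finrank ℚ L := by exact_mod_cast Module.finrank_pos
      have h3 : (degree u y - 2 - ε) * height x + (1 - ε) * logN t ≤
          Real.log |(NumberField.discr L : ℝ)| / Module.finrank ℚ L := by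
        have : logDisc L = Real.log |(NumberField.discr L : ℝ)| / Module.finrank ℚ L := rfl
        rw [← this]
        linarith
      rw [le_div_iff₀ hd] at h3
      linarith
    · intro S hS hε1
      obtain ⟨c, hc⟩ : ∃ c, c = ∑ p ∈ S, Real.log p := ⟨_, rfl⟩
      refine ⟨max T₀ (Real.exp (c / (1 - ε))), hT₀.trans (le_max_left _ _), ?_⟩
      intro T hT K _ _ t x hx L _ _ _ φ hφ
      have hTT : T₀ ≤ T := (le_max_left _ _).trans hT
      have h1 := h' T hTT K t x hx L φ hφ S hS
      have h2 := log_le (hT₀.trans hTT) hx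
      have h3 : c / (1 - ε) ≤ Real.log T := by
        have h4 := Real.log_le_log (Real.exp_pos _) ((le_max_right T₀ _).trans hT)
        rwa [Real.log_exp] at h4
      rw [div_le_iff₀ (by linarith)] at h3
      rw [← hc] at h1
      have h5 : c ≤ (1 - ε) * logN t := by
        calc c ≤ Real.log T * (1 - ε) := h3
          _ ≤ logN t * (1 - ε) := mul_le_mul_of_nonneg_right h2 (by linarith)
          _ = (1 - ε) * logN t := mul_comm _ _
      linarith
  · obtain ⟨c, hc, h⟩ := Pool.Agent.Q128.SDF.many_x a ha
    refine ⟨c, hc, fun D δ T hD hδ hT => ?_⟩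
    obtain ⟨X₀, h1⟩ := h D δ T hD hδ hT
    refine ⟨X₀, fun B hB => ?_⟩
    obtain ⟨E, hE, h2⟩ := h1 B hB
    refine ⟨E, hE, fun x hx => ?_⟩
    obtain ⟨h3, h4⟩ := h2 x hx
    refine ⟨?_, h4⟩
    have h5 := Pool.Agent.Results.MP_6f1c57_nt.AllFieldsHeightInequality.height_eq x
    rw [Module.finrank_self, Nat.cast_one, one_mul] at h5
    rw [← h5]
    exact h3

end Pool.Agent.Results.MP_6f1c57_nt.SmallDigitPoints
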